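import Mathlib

set_option autoImplicit false

/-!
# The operation `P^0` on the target of the F-isomorphism (MP_9cbe1e_gt): definitions

`P_* = F_p[ξ_1, ξ_2, ...]` with the Milnor coproduct is the coordinate ring of the group scheme
of strict automorphisms `x ↦ ∑ a_i x^(p^i)` (`a_0 = 1`) of the additive group.  We describe it,
its action on the points of the scheme `Spec F_p[h_(t,s)] / (relations)`, and the invariants,
through points with values in arbitrary commutative `F_p`-algebras.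
-/

open Finset

namespace Pool.Agent.H989R3.PZero

/-- `a` and `b` are the coefficient sequences of mutually inverse strict automorphisms
`x ↦ ∑ a_i x^(p^i)`, `x ↦ ∑ b_i x^(p^i)` of the additive group over `S`; that is, `b` is the
image of `(ξ_i)` and `a` the image of the sequence `(ζ_i)` of conjugates under a ring map
`P_* → S`. -/
def Strict (p : ℕ) {S : Type} [CommRing S] (a b : ℕ → S) : Prop :=
  a 0 = 1 ∧ b 0 = 1 ∧ ∀ n : ℕ, ∑ i ∈ range (n + 2), a i * b (n + 1 - i) ^ p ^ i = 0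

/-- The relations `h_(t,s) = 0` for `t ≤ s` and `h_(t,s) h_(v,u) = 0` for `t ≤ u`,
for the values `M t s` of the variables `h_(t,s)`. -/
def IsPoint {S : Type} [CommRing S] (M : ℕ → ℕ → S) : Prop :=
  (∀ t s, t ≤ s → M t s = 0) ∧ ∀ t s v u, t ≤ u → M t s * M v u = 0

/-- The action `h_(t,s) ↦ ∑_j ∑_i (ζ_j^(p^s) ξ_(t-i-j)^(p^(i+j+s)))^(p^e) h_(i,j+s)`. -/
def act (p e : ℕ) {S : Type} [CommRing S] (a b : ℕ → S) (M : ℕ → ℕ → S) (t s : ℕ) : S :=
  ∑ j ∈ range (t + 1), ∑ i ∈ range (t + 1 - j),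
    (a j ^ p ^ s * b (t - i - j) ^ p ^ (i + j + s)) ^ p ^ e * M i (s + j)

/-- The polynomial `f` in the variables `h_(t,s)` represents an invariant of the quotient ring
by the relations. -/
def Invariant (p e : ℕ) (f : MvPolynomial (ℕ × ℕ) (ZMod p)) : Prop :=
  ∀ (S : Type) [CommRing S] [Algebra (ZMod p) S] (a b : ℕ → S) (M : ℕ → ℕ → S),
    Strict p a b → IsPoint M →
      MvPolynomial.aeval (fun x : ℕ × ℕ => act p e a b M x.1 x.2) f =
        MvPolynomial.aeval (fun x : ℕ × ℕ => M x.1 x.2) f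

/-- The relations as polynomials. -/
def rels (p : ℕ) : Set (MvPolynomial (ℕ × ℕ) (ZMod p)) :=
  {f | (∃ t s, t ≤ s ∧ f = MvPolynomial.X (t, s)) ∨
    ∃ t s v u, t ≤ u ∧ f = MvPolynomial.X (t, s) * MvPolynomial.X (v, u)}

/-- The operation `P^0 : h_(t,s) ↦ h_(t,s+1)` on polynomials. -/
noncomputable def PZ (p : ℕ) (f : MvPolynomial (ℕ × ℕ) (ZMod p)) :
    MvPolynomial (ℕ × ℕ) (ZMod p) :=
  MvPolynomial.rename (fun x : ℕ × ℕ => (x.1, x.2 + 1)) f

end Pool.Agent.H989R3.PZero
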