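import Mathlib
import Pool.Agent.H989R3.PZero.Defs

set_option autoImplicit false

open Finset

namespace Pool.Agent.H989R3.PZero

/-- backward recursion -/
theorem exists_back {A : Type*} (z : A) (C : ℕ) (g : ℕ → A → A) :
    ∃ ν : ℕ → A, (∀ c, C ≤ c → ν c = z) ∧ ∀ c, c < C → ν c = g c (ν (c + 1)) := by
  let w : ℕ → A := fun k => Nat.rec z (fun k y => g (C - k - 1) y) k
  refine ⟨fun c => w (C - c), ?_, ?_⟩
  · intro c hc
    have : C - c = 0 := by omega
    simp only [this]
    rfl
  · intro c hc
    have h1 : C - c = (C - (c + 1)) + 1 := by omega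
    have h2 : w (C - c) = g (C - (C - (c + 1)) - 1) (w (C - (c + 1))) := by
      rw [h1]
    have h3 : C - (C - (c + 1)) - 1 = c := by omega
    simp only [h2, h3]

variable {R : Type} [CommRing R]

/-- the properties of a row -/
structure Row (p e n C s : ℕ) (M : ℕ → ℕ → R) (m ν : ℕ → ℕ → Polynomial R) : Prop where
  lo : ∀ c, c < s + n → m s c = 0 ∧ ν s c = 0
  hi : ∀ c, s + n + 1 ≤ c → m s c = Polynomial.C (M (c - s) s)
  bd : m s (s + n) = ν s (s + n)
  rc : ∀ c, s + n ≤ c → c < C → ν s c =
    Polynomial.X ^ p ^ (c + e) * (ν s (c + 1) - m s (c + 1)) -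
      (-1) ^ p ^ (s + e) * Polynomial.X ^ (p ^ (c + e) - p ^ (s + e)) * m (s + 1) (c + 1)
  top : ∀ c, C ≤ c → ν s c = 0

theorem exists_rows (p e n C : ℕ) (M : ℕ → ℕ → R) (σ : ℕ) (hσ : σ ≤ n) :
    ∃ m ν : ℕ → ℕ → Polynomial R, (∀ s, n ≤ s → ∀ c, m s c = 0 ∧ ν s c = 0) ∧
      ∀ s, n - σ ≤ s → s < n → Row p e n C s M m ν := by
  classical
  induction σ with
  | zero =>
    refine ⟨fun _ _ => 0, fun _ _ => 0, fun _ _ _ => ⟨rfl, rfl⟩, ?_⟩
    intro s h1 h2
    omega
  | succ σ ih =>
    obtain ⟨m, ν, h0, h1⟩ := ih (by omega)
    set s0 : ℕ := n - (σ + 1) with hs0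
    have hs0n : s0 < n := by omega
    obtain ⟨w, hw1, hw2⟩ := exists_back (0 : Polynomial R) C (fun c y =>
      Polynomial.X ^ p ^ (c + e) * (y - Polynomial.C (M (c + 1 - s0) s0)) -
        (-1) ^ p ^ (s0 + e) * Polynomial.X ^ (p ^ (c + e) - p ^ (s0 + e)) * m (s0 + 1) (c + 1))
    let νr : ℕ → Polynomial R := fun c => if c < s0 + n then 0 else w c
    let mr : ℕ → Polynomial R := fun c => if c < s0 + n then 0 else
      if c = s0 + n then w c else Polynomial.C (M (c - s0) s0)
    refine ⟨Function.update m s0 mr, Function.update ν s0 νr, ?_, ?_⟩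
    · intro s hs c
      have : s ≠ s0 := by omega
      rw [Function.update_of_ne this, Function.update_of_ne this]
      exact h0 s hs c
    · intro s hs1 hs2
      by_cases hs : s = s0
      · subst hs
        have hne : s0 + 1 ≠ s0 := by omega
        refine ⟨?_, ?_, ?_, ?_, ?_⟩
        · intro c hc
          rw [Function.update_self, Function.update_self]
          exact ⟨if_pos hc, if_pos hc⟩
        · intro c hc
          rw [Function.update_self]
          change (if c < s0 + n then 0 else if c = s0 + n then w c else
            Polynomial.C (M (c - s0) s0)) = _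
          rw [if_neg (by omega), if_neg (by omega)]
        · rw [Function.update_self, Function.update_self]
          change (if s0 + n < s0 + n then 0 else if s0 + n = s0 + n then w (s0 + n) else
            Polynomial.C (M (s0 + n - s0) s0)) = (if s0 + n < s0 + n then 0 else w (s0 + n))
          rw [if_neg (by omega), if_pos rfl, if_neg (by omega)]
        · intro c hc1 hc2
          rw [Function.update_self, Function.update_self, Function.update_of_ne hne]
          change (if c < s0 + n then 0 else w c) = Polynomial.X ^ p ^ (c + e) *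
            ((if c + 1 < s0 + n then 0 else w (c + 1)) - (if c + 1 < s0 + n then 0 else
              if c + 1 = s0 + n then w (c + 1) else Polynomial.C (M (c + 1 - s0) s0))) - _
          rw [if_neg (by omega), if_neg (by omega), if_neg (by omega), if_neg (by omega)]
          exact hw2 c hc2
        · intro c hc
          rw [Function.update_self]
          change (if c < s0 + n then 0 else w c) = 0
          split_ifs with h
          · rfl
          · exact hw1 c hc
      · have hr := h1 s (by omega) hs2
        have hs' : s + 1 ≠ s0 := by omega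
        refine ⟨?_, ?_, ?_, ?_, ?_⟩
        · intro c hc
          rw [Function.update_of_ne hs, Function.update_of_ne hs]
          exact hr.lo c hc
        · intro c hc
          rw [Function.update_of_ne hs]
          exact hr.hi c hc
        · rw [Function.update_of_ne hs, Function.update_of_ne hs]
          exact hr.bd
        · intro c hc1 hc2
          rw [Function.update_of_ne hs, Function.update_of_ne hs, Function.update_of_ne hs']
          exact hr.rc c hc1 hc2
        · intro c hc
          rw [Function.update_of_ne hs]
          exact hr.top c hc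

theorem Row.dvd {p e n C s : ℕ} {M : ℕ → ℕ → R} {m ν : ℕ → ℕ → Polynomial R}
    (h : Row p e n C s M m ν) (hp : 1 < p) (hn : 0 < n) (c : ℕ) : Polynomial.X ∣ ν s c := by
  by_cases h1 : c < s + n
  · rw [(h.lo c h1).2]
    exact dvd_zero _
  · by_cases h2 : c < C
    · rw [h.rc c (by omega) h2]
      apply dvd_sub
      · apply Dvd.dvd.mul_right
        apply dvd_pow_self
        exact pow_ne_zero _ (by omega)
      · apply Dvd.dvd.mul_right
        apply Dvd.dvd.mul_left
        apply dvd_pow_self
        have : p ^ (s + e) < p ^ (c + e) := Nat.pow_lt_pow_right hp (by omega)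
        omega
    · rw [h.top c (by omega)]
      exact dvd_zero _

end Pool.Agent.H989R3.PZero
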