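import Mathlib
import Pool.Agent.H989R3.PZero.Core

set_option autoImplicit false

open Finset

namespace Pool.Agent.H989R3.PZero

variable {S : Type} [CommRing S]

/-- the sequence `1, -D, 0, 0, ...` -/
def aa (D : S) (n : ℕ) : S := if n = 0 then 1 else if n = 1 then -D else 0

/-- its inverse -/
def bb (p : ℕ) (D : S) (n : ℕ) : S := D ^ (∑ i ∈ range n, p ^ i)

theorem bb_zero (p : ℕ) (D : S) : bb p D 0 = 1 := by simp [bb]

theorem bb_succ (p : ℕ) (D : S) (n : ℕ) : bb p D (n + 1) = D ^ p ^ n * bb p D n := by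
  unfold bb
  rw [Finset.sum_range_succ, pow_add, mul_comm]

theorem bb_succ' (p : ℕ) (D : S) (n : ℕ) : bb p D (n + 1) = D * bb p D n ^ p := by
  unfold bb
  rw [Finset.sum_range_succ', ← pow_mul, Finset.sum_mul, pow_add, mul_comm]
  congr 1
  simp

theorem strict_aa_bb (p : ℕ) (D : S) : Strict p (aa D) (bb p D) := by
  refine ⟨by simp [aa], bb_zero p D, ?_⟩
  intro n
  rw [Finset.sum_range_succ', Finset.sum_range_succ']
  have h0 : ∑ k ∈ range n, aa D (k + 1 + 1) * bb p D (n + 1 - (k + 1 + 1)) ^ p ^ (k + 1 + 1) = 0 := by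
    apply Finset.sum_eq_zero
    intro k _
    simp [aa]
  rw [h0]
  simp only [aa, zero_add, if_true, Nat.one_ne_zero, if_false, pow_one, Nat.sub_zero,
    pow_zero, one_mul, Nat.add_sub_cancel]
  rw [bb_succ']
  ring

/-- the `j = 0` part of the action -/
noncomputable def A0 (p e : ℕ) (D : S) (m : ℕ → ℕ → S) (t s : ℕ) : S :=
  ∑ i ∈ range (t + 1), (bb p D (t - i) ^ p ^ (i + s)) ^ p ^ e * m s (s + i)

/-- the sum in the `j = 1` part -/
noncomputable def B0 (p e : ℕ) (D : S) (m : ℕ → ℕ → S) (t s : ℕ) : S :=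
  ∑ i ∈ range t, (bb p D (t - 1 - i) ^ p ^ (i + 1 + s)) ^ p ^ e * m (s + 1) (s + 1 + i)

theorem A0_succ (p e : ℕ) (D : S) (m : ℕ → ℕ → S) (t s : ℕ) :
    A0 p e D m (t + 1) s = D ^ p ^ (s + t + e) * A0 p e D m t s + m s (s + (t + 1)) := by
  unfold A0
  rw [Finset.sum_range_succ, Finset.mul_sum]
  congr 1
  · apply Finset.sum_congr rfl
    intro i hi
    rw [Finset.mem_range] at hi
    have h1 : t + 1 - i = (t - i) + 1 := by omega
    rw [h1, bb_succ, mul_pow, mul_pow, ← mul_assoc, ← pow_mul, ← pow_mul, ← pow_add, ← pow_add]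
    have h2 : t - i + (i + s + e) = s + t + e := by omega
    rw [h2]
  · rw [Nat.sub_self, bb_zero, one_pow, one_pow, one_mul]

theorem B0_succ (p e : ℕ) (D : S) (m : ℕ → ℕ → S) (t s : ℕ) :
    B0 p e D m (t + 1) s = D ^ p ^ (s + t + e) * B0 p e D m t s + m (s + 1) (s + (t + 1)) := by
  unfold B0
  rw [Finset.sum_range_succ, Finset.mul_sum]
  congr 1
  · apply Finset.sum_congr rfl
    intro i hi
    rw [Finset.mem_range] at hi
    have h1 : t + 1 - 1 - i = (t - 1 - i) + 1 := by omega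
    rw [h1, bb_succ, mul_pow, mul_pow, ← mul_assoc, ← pow_mul, ← pow_mul, ← pow_add, ← pow_add]
    have h2 : t - 1 - i + (i + 1 + s + e) = s + t + e := by omega
    rw [h2]
  · have h3 : t + 1 - 1 - t = 0 := by omega
    have h4 : s + 1 + t = s + (t + 1) := by omega
    rw [h3, bb_zero, one_pow, one_pow, one_mul, h4]

/-- the action in terms of rows and columns -/
theorem act_eq (p e : ℕ) (hp : 0 < p) (D : S) (m : ℕ → ℕ → S) (t s : ℕ) :
    act p e (aa D) (bb p D) (fun t s => m s (s + t)) t s =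
      A0 p e D m t s + (-D) ^ p ^ (s + e) * B0 p e D m t s := by
  unfold act
  rw [Finset.sum_range_succ']
  have hA : ∑ i ∈ range (t + 1 - 0), (aa D 0 ^ p ^ s * bb p D (t - i - 0) ^ p ^ (i + 0 + s)) ^ p ^ e *
      m (s + 0) (s + 0 + i) = A0 p e D m t s := by
    unfold A0
    apply Finset.sum_congr rfl
    intro i _
    simp [aa]
  rw [hA, add_comm]
  congr 1
  cases t with
  | zero => simp [B0]
  | succ t =>
    rw [Finset.sum_range_succ']
    have hz : ∑ k ∈ range t, ∑ i ∈ range (t + 1 + 1 - (k + 1 + 1)),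
        (aa D (k + 1 + 1) ^ p ^ s * bb p D (t + 1 - i - (k + 1 + 1)) ^ p ^ (i + (k + 1 + 1) + s)) ^
          p ^ e * m (s + (k + 1 + 1)) (s + (k + 1 + 1) + i) = 0 := by
      apply Finset.sum_eq_zero
      intro k _
      apply Finset.sum_eq_zero
      intro i _
      have h1 : aa D (k + 1 + 1) = 0 := by simp [aa]
      rw [h1, zero_pow (pow_ne_zero _ (by omega)), zero_mul, zero_pow (pow_ne_zero _ (by omega)),
        zero_mul]
    rw [hz, zero_add]
    unfold B0
    rw [Finset.mul_sum]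
    apply Finset.sum_congr (by simp)
    intro i _
    have h1 : aa D (0 + 1) = -D := by simp [aa]
    have h2 : t + 1 - i - (0 + 1) = t + 1 - 1 - i := by omega
    have h3 : i + (0 + 1) + s = i + 1 + s := by omega
    rw [h1, h2, h3, mul_pow, ← pow_mul, ← pow_add, zero_add, mul_assoc]

theorem act_zero (p e : ℕ) (hp : 0 < p) (D : S) (m : ℕ → ℕ → S) (s : ℕ) :
    act p e (aa D) (bb p D) (fun t s => m s (s + t)) 0 s = m s s := by
  rw [act_eq p e hp]
  simp [A0, B0, bb_zero]

theorem act_succ (p e : ℕ) (hp : 0 < p) (D : S) (m : ℕ → ℕ → S) (t s : ℕ) :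
    act p e (aa D) (bb p D) (fun t s => m s (s + t)) (t + 1) s =
      D ^ p ^ (s + t + e) * act p e (aa D) (bb p D) (fun t s => m s (s + t)) t s +
        m s (s + (t + 1)) + (-D) ^ p ^ (s + e) * m (s + 1) (s + (t + 1)) := by
  rw [act_eq p e hp, act_eq p e hp, A0_succ, B0_succ]
  ring

end Pool.Agent.H989R3.PZero
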