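import Mathlib
import Pool.Agent.H989R3.PZero.Act

set_option autoImplicit false

open Finset

namespace Pool.Agent.H989R3.PZero

theorem map_aeval_zmod {p : ℕ} {A B : Type} [CommRing A] [CommRing B] [Algebra (ZMod p) A]
    [Algebra (ZMod p) B] (φ : A →+* B) (g : ℕ × ℕ → A) (f : MvPolynomial (ℕ × ℕ) (ZMod p)) :
    φ (MvPolynomial.aeval g f) = MvPolynomial.aeval (fun x => φ (g x)) f := by
  rw [MvPolynomial.map_aeval]
  have h : φ.comp (algebraMap (ZMod p) A) = algebraMap (ZMod p) B := Subsingleton.elim _ _
  rw [h]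
  rfl

theorem aeval_congr_vars {p : ℕ} {A : Type} [CommRing A] [Algebra (ZMod p) A]
    (g h : ℕ × ℕ → A) (f : MvPolynomial (ℕ × ℕ) (ZMod p)) (H : ∀ x ∈ f.vars, g x = h x) :
    MvPolynomial.aeval g f = MvPolynomial.aeval h f := by
  change MvPolynomial.eval₂Hom (algebraMap (ZMod p) A) g f =
    MvPolynomial.eval₂Hom (algebraMap (ZMod p) A) h f
  apply MvPolynomial.eval₂Hom_congr' rfl _ rfl
  intro i hi _
  exact H i hi

theorem act_eq_nu (p e : ℕ) (hp : 0 < p) (n C : ℕ) {R : Type} [CommRing R]
    (M : ℕ → ℕ → R) (m ν : ℕ → ℕ → Polynomial R)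
    (hz : ∀ s, n ≤ s → ∀ c, m s c = 0 ∧ ν s c = 0)
    (hr : ∀ s, s < n → Row p e n C s M m ν) (D : LaurentPolynomial R)
    (hXD : Polynomial.toLaurent (Polynomial.X : Polynomial R) * D = 1) (s t : ℕ)
    (hst : s + t ≤ C) :
    act p e (aa D) (bb p D) (fun t s => Polynomial.toLaurent (m s (s + t))) t s =
      Polynomial.toLaurent (ν s (s + t)) := by
  have key : ∀ s c, c < s + n → m s c = 0 := by
    intro s c hc
    by_cases h : s < n
    · exact ((hr s h).lo c hc).1
    · exact (hz s (by omega) c).1
  induction t with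
  | zero =>
    have h1 := act_zero p e hp D (fun s c => Polynomial.toLaurent (m s c)) s
    rw [h1]
    by_cases h : s < n
    · have h2 := (hr s h).lo s (by omega)
      rw [Nat.add_zero, h2.1, h2.2]
    · have h2 := hz s (by omega) s
      rw [Nat.add_zero, h2.1, h2.2]
  | succ t ih =>
    have h1 := act_succ p e hp D (fun s c => Polynomial.toLaurent (m s c)) t s
    rw [h1]
    have ih' := ih (by omega)
    rw [ih']
    by_cases h : s < n
    · by_cases h2 : t + 1 < n
      · rw [((hr s h).lo (s + t) (by omega)).2, ((hr s h).lo (s + (t + 1)) (by omega)).2,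
          key s (s + (t + 1)) (by omega), key (s + 1) (s + (t + 1)) (by omega)]
        simp
      · by_cases h3 : t + 1 = n
        · rw [((hr s h).lo (s + t) (by omega)).2, key (s + 1) (s + (t + 1)) (by omega), h3,
            (hr s h).bd]
          simp
        · have h4 := (hr s h).rc (s + t) (by omega) (by omega)
          have h5 : s + (t + 1) = s + t + 1 := by omega
          rw [h5, h4]
          have h6 : ∀ k, Polynomial.toLaurent (Polynomial.X : Polynomial R) ^ k * D ^ k = 1 := by
            intro k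
            rw [← mul_pow, hXD, one_pow]
          have h7 : p ^ (s + e) ≤ p ^ (s + t + e) := Nat.pow_le_pow_right hp (by omega)
          have h8 : D ^ p ^ (s + t + e) = D ^ (p ^ (s + t + e) - p ^ (s + e)) * D ^ p ^ (s + e) := by
            rw [← pow_add]
            congr 1
            omega
          have h9 := h6 (p ^ (s + t + e))
          have h10 := h6 (p ^ (s + t + e) - p ^ (s + e))
          have h11 : (-D) ^ p ^ (s + e) = (-1) ^ p ^ (s + e) * D ^ p ^ (s + e) := by
            rw [neg_pow]
          rw [h11]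
          simp only [map_sub, map_mul, map_pow, map_neg, map_one]
          rw [mul_sub]
          have e1 : D ^ p ^ (s + t + e) * (Polynomial.toLaurent Polynomial.X ^ p ^ (s + t + e) *
              (Polynomial.toLaurent (ν s (s + t + 1)) - Polynomial.toLaurent (m s (s + t + 1)))) =
              Polynomial.toLaurent (ν s (s + t + 1)) - Polynomial.toLaurent (m s (s + t + 1)) := by
            rw [← mul_assoc, mul_comm (D ^ p ^ (s + t + e)), h9, one_mul]
          have e2 : D ^ p ^ (s + t + e) * ((-1) ^ p ^ (s + e) *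
              Polynomial.toLaurent Polynomial.X ^ (p ^ (s + t + e) - p ^ (s + e)) *
              Polynomial.toLaurent (m (s + 1) (s + t + 1))) =
              (-1) ^ p ^ (s + e) * D ^ p ^ (s + e) * Polynomial.toLaurent (m (s + 1) (s + t + 1)) := by
            rw [h8]
            calc D ^ (p ^ (s + t + e) - p ^ (s + e)) * D ^ p ^ (s + e) * ((-1) ^ p ^ (s + e) *
                  Polynomial.toLaurent Polynomial.X ^ (p ^ (s + t + e) - p ^ (s + e)) *
                  Polynomial.toLaurent (m (s + 1) (s + t + 1)))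
                = (Polynomial.toLaurent Polynomial.X ^ (p ^ (s + t + e) - p ^ (s + e)) *
                    D ^ (p ^ (s + t + e) - p ^ (s + e))) * ((-1) ^ p ^ (s + e) * D ^ p ^ (s + e) *
                    Polynomial.toLaurent (m (s + 1) (s + t + 1))) := by ring
              _ = _ := by rw [h10, one_mul]
          rw [e1, e2]
          ring
    · rw [(hz s (by omega) (s + t)).2, (hz s (by omega) (s + (t + 1))).2,
          (hz s (by omega) (s + (t + 1))).1, (hz (s + 1) (by omega) (s + (t + 1))).1]
      simp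

theorem core (p e : ℕ) (hp : 1 < p) (n : ℕ) (hn : 0 < n) {R : Type} [CommRing R]
    [Algebra (ZMod p) R] (M : ℕ → ℕ → R) (hM : ∀ t s, (n ≤ s ∨ t < n + 1) → M t s = 0)
    (f : MvPolynomial (ℕ × ℕ) (ZMod p)) (hf : Invariant p e f) :
    MvPolynomial.aeval (fun x : ℕ × ℕ => M x.1 x.2) f =
      algebraMap (ZMod p) R (MvPolynomial.constantCoeff f) := by
  classical
  obtain ⟨C, hC⟩ : ∃ C, ∀ x ∈ f.vars, x.1 + x.2 ≤ C :=
    ⟨f.vars.sup (fun x => x.1 + x.2), fun x hx =>
      Finset.le_sup (f := fun x : ℕ × ℕ => x.1 + x.2) hx⟩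
  obtain ⟨m, ν, hz, hr0⟩ := exists_rows p e n C M n le_rfl
  have hr : ∀ s, s < n → Row p e n C s M m ν := fun s hs => hr0 s (by omega) hs
  obtain ⟨D, hXD⟩ : ∃ D : LaurentPolynomial R,
      Polynomial.toLaurent (Polynomial.X : Polynomial R) * D = 1 := by
    refine ⟨LaurentPolynomial.T (-1), ?_⟩
    rw [Polynomial.toLaurent_X, ← LaurentPolynomial.T_add]
    simp
  have key : ∀ s c, c < s + n → m s c = 0 := by
    intro s c hc
    by_cases h : s < n
    · exact ((hr s h).lo c hc).1
    · exact (hz s (by omega) c).1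
  have hpt : IsPoint (fun t s => Polynomial.toLaurent (m s (s + t))) := by
    refine ⟨?_, ?_⟩
    · intro t s hts
      change Polynomial.toLaurent (m s (s + t)) = 0
      by_cases h : t < n
      · rw [key s (s + t) (by omega), map_zero]
      · rw [(hz s (by omega) (s + t)).1, map_zero]
    · intro t s v u htu
      change Polynomial.toLaurent (m s (s + t)) * Polynomial.toLaurent (m u (u + v)) = 0
      by_cases h : t < n
      · rw [key s (s + t) (by omega), map_zero, zero_mul]
      · rw [(hz u (by omega) (u + v)).1, map_zero, mul_zero]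
  have hinv := hf (LaurentPolynomial R) (aa D) (bb p D) _ (strict_aa_bb p D) hpt
  have h1 : MvPolynomial.aeval (fun x : ℕ × ℕ => act p e (aa D) (bb p D)
      (fun t s => Polynomial.toLaurent (m s (s + t))) x.1 x.2) f =
      MvPolynomial.aeval (fun x : ℕ × ℕ => Polynomial.toLaurent (ν x.2 (x.2 + x.1))) f := by
    apply aeval_congr_vars
    intro x hx
    have := hC x hx
    exact act_eq_nu p e (by omega) n C M m ν hz hr D hXD x.2 x.1 (by omega)
  rw [h1] at hinv
  have h2 : MvPolynomial.aeval (fun x : ℕ × ℕ => ν x.2 (x.2 + x.1)) f =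
      MvPolynomial.aeval (fun x : ℕ × ℕ => m x.2 (x.2 + x.1)) f := by
    apply Polynomial.toLaurent_injective
    have e1 := map_aeval_zmod (p := p) (A := Polynomial R) (B := LaurentPolynomial R)
      Polynomial.toLaurent (fun x : ℕ × ℕ => ν x.2 (x.2 + x.1)) f
    have e2 := map_aeval_zmod (p := p) (A := Polynomial R) (B := LaurentPolynomial R)
      Polynomial.toLaurent (fun x : ℕ × ℕ => m x.2 (x.2 + x.1)) f
    exact e1.trans (hinv.trans e2.symm)
  have h3 := congrArg (Polynomial.constantCoeff : Polynomial R →+* R) h2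
  have e3 := map_aeval_zmod (p := p) (A := Polynomial R) (B := R)
    Polynomial.constantCoeff (fun x : ℕ × ℕ => ν x.2 (x.2 + x.1)) f
  have e4 := map_aeval_zmod (p := p) (A := Polynomial R) (B := R)
    Polynomial.constantCoeff (fun x : ℕ × ℕ => m x.2 (x.2 + x.1)) f
  replace h3 := e3.symm.trans (h3.trans e4)
  have hν0 : ∀ s c, Polynomial.constantCoeff (ν s c) = 0 := by
    intro s c
    have hd : Polynomial.X ∣ ν s c := by
      by_cases h : s < n
      · exact (hr s h).dvd hp hn c
      · rw [(hz s (by omega) c).2]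
        exact dvd_zero _
    obtain ⟨q, hq⟩ := hd
    rw [hq, map_mul]
    simp
  have h4 : MvPolynomial.aeval (fun x : ℕ × ℕ => Polynomial.constantCoeff (ν x.2 (x.2 + x.1))) f =
      algebraMap (ZMod p) R (MvPolynomial.constantCoeff f) := by
    have : (fun x : ℕ × ℕ => Polynomial.constantCoeff (ν x.2 (x.2 + x.1))) =
        fun _ => (0 : R) := funext fun x => hν0 _ _
    rw [this]
    exact MvPolynomial.aeval_zero' f
  have h5 : (fun x : ℕ × ℕ => Polynomial.constantCoeff (m x.2 (x.2 + x.1))) =
      fun x : ℕ × ℕ => M x.1 x.2 := by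
    funext x
    obtain ⟨t, s⟩ := x
    change Polynomial.constantCoeff (m s (s + t)) = M t s
    by_cases h : s < n
    · by_cases h6 : t < n
      · rw [key s (s + t) (by omega), map_zero, hM t s (Or.inr (by omega))]
      · by_cases h7 : t = n
        · subst h7
          rw [(hr s h).bd, hν0, hM t s (Or.inr (by omega))]
        · rw [(hr s h).hi (s + t) (by omega)]
          have h8 : s + t - s = t := by omega
          rw [h8]
          simp
    · rw [(hz s (by omega) (s + t)).1, map_zero, hM t s (Or.inl (by omega))]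
  rw [h4, h5] at h3
  exact h3.symm

/-- coefficients of the image under a kill map -/
theorem coeff_kill {p : ℕ} (P : ℕ × ℕ → Prop) [DecidablePred P]
    (g : MvPolynomial (ℕ × ℕ) (ZMod p)) (v : (ℕ × ℕ) →₀ ℕ) (hv : ∀ x ∈ v.support, P x) :
    MvPolynomial.coeff v (MvPolynomial.aeval (fun x : ℕ × ℕ =>
      if P x then (MvPolynomial.X x : MvPolynomial (ℕ × ℕ) (ZMod p)) else 0) g) =
      MvPolynomial.coeff v g := by
  classical
  induction g using MvPolynomial.induction_on' with
  | monomial u c =>
    rw [MvPolynomial.aeval_monomial]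
    by_cases hu : ∀ x ∈ u.support, P x
    · have : (u.prod fun i k => (if P i then
          (MvPolynomial.X i : MvPolynomial (ℕ × ℕ) (ZMod p)) else 0) ^ k) =
          u.prod fun i k => (MvPolynomial.X i : MvPolynomial (ℕ × ℕ) (ZMod p)) ^ k := by
        apply Finsupp.prod_congr
        intro x hx
        rw [if_pos (hu x hx)]
      rw [this, MvPolynomial.monomial_eq]
      rfl
    · push Not at hu
      obtain ⟨x, hx, hPx⟩ := hu
      have : (u.prod fun i k => (if P i then
          (MvPolynomial.X i : MvPolynomial (ℕ × ℕ) (ZMod p)) else 0) ^ k) = 0 := by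
        apply Finset.prod_eq_zero hx
        change (if P x then (MvPolynomial.X x : MvPolynomial (ℕ × ℕ) (ZMod p)) else 0) ^ u x = 0
        rw [if_neg hPx]
        exact zero_pow (Finsupp.mem_support_iff.mp hx)
      rw [this, mul_zero, MvPolynomial.coeff_zero, MvPolynomial.coeff_monomial, if_neg]
      rintro rfl
      exact hPx (hv x hx)
  | add a b ha hb =>
    rw [map_add, MvPolynomial.coeff_add, MvPolynomial.coeff_add, ha, hb]

theorem monomial_mem {p : ℕ} (I : Ideal (MvPolynomial (ℕ × ℕ) (ZMod p)))
    (w v : (ℕ × ℕ) →₀ ℕ) (hwv : w ≤ v) (c : ZMod p) (hw : MvPolynomial.monomial w 1 ∈ I) :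
    MvPolynomial.monomial v c ∈ I := by
  have h : MvPolynomial.monomial v c =
      MvPolynomial.monomial (v - w) c * MvPolynomial.monomial w 1 := by
    rw [MvPolynomial.monomial_mul, mul_one, tsub_add_cancel_of_le hwv]
  rw [h]
  exact I.mul_mem_left _ hw

theorem mem_span_of_kill (p : ℕ) (g : MvPolynomial (ℕ × ℕ) (ZMod p))
    (h : ∀ n : ℕ, MvPolynomial.aeval (fun x : ℕ × ℕ => if x.2 < n ∧ n ≤ x.1 then
      (MvPolynomial.X x : MvPolynomial (ℕ × ℕ) (ZMod p)) else 0) g = 0) :
    g ∈ Ideal.span (rels p) := by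
  classical
  rw [g.as_sum]
  apply Ideal.sum_mem
  intro v hv
  by_cases hc : ∀ x ∈ v.support, ∀ y ∈ v.support, y.2 < x.1
  · exfalso
    rw [MvPolynomial.mem_support_iff] at hv
    apply hv
    obtain ⟨n, hn⟩ : ∃ n : ℕ, ∀ x ∈ v.support, x.2 < n ∧ n ≤ x.1 := by
      by_cases hne : v.support.Nonempty
      · obtain ⟨x0, hx0, hmin⟩ := Finset.exists_min_image v.support (fun x => x.1) hne
        exact ⟨x0.1, fun x hx => ⟨hc x0 hx0 x hx, hmin x hx⟩⟩
      · refine ⟨0, fun x hx => ?_⟩
        exact absurd ⟨x, hx⟩ hne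
    have h1 := coeff_kill (p := p) (fun x : ℕ × ℕ => x.2 < n ∧ n ≤ x.1) g v hn
    rw [h n, MvPolynomial.coeff_zero] at h1
    exact h1.symm
  · push Not at hc
    obtain ⟨x, hx, y, hy, hxy⟩ := hc
    by_cases he : x = y
    · subst he
      apply monomial_mem _ (Finsupp.single x 1) v
      · rw [Finsupp.single_le_iff]
        have := Finsupp.mem_support_iff.mp hx
        omega
      · apply Ideal.subset_span
        left
        exact ⟨x.1, x.2, hxy, rfl⟩
    · apply monomial_mem _ (Finsupp.single x 1 + Finsupp.single y 1) v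
      · intro z
        rw [Finsupp.add_apply, Finsupp.single_apply, Finsupp.single_apply]
        have h1 := Finsupp.mem_support_iff.mp hx
        have h2 := Finsupp.mem_support_iff.mp hy
        by_cases hzx : x = z
        · subst hzx
          rw [if_pos rfl, if_neg (fun h => he h.symm)]
          omega
        · rw [if_neg hzx]
          by_cases hzy : y = z
          · subst hzy
            rw [if_pos rfl]
            omega
          · rw [if_neg hzy]
            omega
      · apply Ideal.subset_span
        right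
        refine ⟨x.1, x.2, y.1, y.2, hxy, ?_⟩
        have : (MvPolynomial.X (x.1, x.2) : MvPolynomial (ℕ × ℕ) (ZMod p)) *
            MvPolynomial.X (y.1, y.2) = MvPolynomial.monomial (Finsupp.single x 1) 1 *
              MvPolynomial.monomial (Finsupp.single y 1) 1 := rfl
        rw [this, MvPolynomial.monomial_mul, mul_one]

theorem main (p : ℕ) (hp : 1 < p) (e : ℕ) (f : MvPolynomial (ℕ × ℕ) (ZMod p))
    (hf : Invariant p e f) (h0 : MvPolynomial.constantCoeff f = 0) :
    PZ p f ∈ Ideal.span (rels p) := by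
  classical
  apply mem_span_of_kill
  intro n'
  unfold PZ
  rw [MvPolynomial.aeval_rename]
  by_cases hn : n' ≤ 1
  · have : ((fun x : ℕ × ℕ => if x.2 < n' ∧ n' ≤ x.1 then
        (MvPolynomial.X x : MvPolynomial (ℕ × ℕ) (ZMod p)) else 0) ∘
          fun x : ℕ × ℕ => (x.1, x.2 + 1)) = fun _ => 0 := by
      funext x
      change (if x.2 + 1 < n' ∧ n' ≤ x.1 then _ else _) = _
      rw [if_neg (by omega)]
    rw [this, MvPolynomial.aeval_zero', h0, map_zero]
  · have h1 := core p e hp (n' - 1) (by omega)
      (fun t s => if s + 1 < n' ∧ n' ≤ t then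
        (MvPolynomial.X (t, s + 1) : MvPolynomial (ℕ × ℕ) (ZMod p)) else 0)
      (by
        intro t s hts
        rw [if_neg (by omega)]) f hf
    rw [h0, map_zero] at h1
    exact h1

end Pool.Agent.H989R3.PZero
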